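import Pool.Agent.Helper84.T5g.Defs
import Pool.Agent.Helper48.T5g.Int
import Pool.Agent.Helper37.T5g.Event
import Pool.Agent.Helper37.T5g.Prod
import Pool.Agent.Helper30.T5g.Level

/-!
# T5b: basic facts of the states of variant S
-/

set_option autoImplicit false

namespace Pool.Agent.Helper27.T5g

open Pool.Agent.Helper27.T5b

open Finset Pool.Agent.Helper5.ET Pool.Agent.Helper27.T4
open Pool.Agent.Helper37.T5g Pool.Agent.Helper84.T5g Pool.Agent.Helper57.T5
open Pool.Agent.Helper48.T5g (Cpl NL_eq cT_main)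
open Pool.Agent.Helper30.T5g (pz QF QT RT PZ ez NL RT_succ RT_pos QT_pos)

variable {m : Sq} {k : ℕ}

/-- the joint modulus -/
theorem Jn_eq_JJ (m : Sq) (k s l : ℕ) : Jn m k s l = Pool.Agent.Helper48.T5g.JJ m k s l := by
  unfold Jn NN Pool.Agent.Helper48.T5g.JJ Pool.Agent.Helper48.T5g.J0 Pool.Agent.Helper48.T5g.TJ
  rw [Fintype.prod_sum_type, Fin.prod_univ_succ (n := 3), mul_assoc]
  congr 1
  apply prod_congr rfl
  intro f _
  show pr f ^ ct (ins m k) own (ex m k) (Sum.inl f) l = _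
  rw [← cT_main]

/-! ## numbers of levels -/

theorem k_le_sL (hm : m.Ok) (k l : ℕ) : k ≤ sL m k l := k_le_sv hm _ _

theorem k_le_dvL (hm : m.Ok) (k l : ℕ) : k ≤ dv m k (mL m k l) := k_le_dv hm _ _

theorem bL_add_k (hm : m.Ok) (k l : ℕ) : bL m k l + k = dv m k (mL m k l) := by
  have := k_le_dvL hm k l
  unfold bL
  omega

theorem rL_bounds (hm : m.Ok) (k l : ℕ) :
    bL m k l + k ≤ sL m k l ∧ sL m k l ≤ bL m k l + k + 1 ∧ k ≤ rL m k l ∧ rL m k l ≤ k + 1 ∧
      bL m k l + rL m k l = sL m k l ∧ rL m k l ≤ sL m k l := by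
  have h1 := bL_add_k hm k l
  have h2 := dv_le_sv m k (mL m k l)
  have h3 : sL m k l = sv m k (mL m k l) := rfl
  have h4 : rL m k l = sL m k l - bL m k l := rfl
  omega

/-! ## complete triples -/

theorem ut_mono (hm : m.Ok) {t t' : ℕ} (h : t ≤ t') : ut m t ≤ ut m t' := by
  rcases Nat.eq_or_lt_of_le h with h | h
  · rw [h]
  · have h1 : kt m t + 1 ≤ kt m t' := kt_strictMono hm h
    have h2 := bb_strictMono.monotone h1
    have h3 := bb_le_ut m t'
    have h4 := len_bounds (kt m t)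
    have h5 := bb_add_len (kt m t)
    unfold ut at h3 ⊢
    omega

/-- the triples are complete at every later index before the next growth -/
theorem cpl_of' (hm : m.Ok) {l x : ℕ} (hl : bb 0 ≤ mL m k l) (hx : l ≤ x)
    (hx2 : mL m k x ≤ ut m (sL m k l + 2)) : Cpl m k (sL m k l) x where
  ks := k_le_sL hm k l
  full := by
    intro t ht hts f
    apply le_antisymm (ct_some_le_zf hm t f x)
    rw [← ct_split hm ht f hts hl]
    exact ct_mono _ hx
  low := fun t ht f => ct_some_le hm ht f x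
  high := fun t ht f => ct_before hm f (hx2.trans (ut_mono hm (by omega)))

theorem mL_le_ut (hm : m.Ok) {l x : ℕ} (hl : bb 0 ≤ mL m k l) (hx : l ≤ x)
    (hx2 : x ≤ l + SS m (sL m k l)) : mL m k x ≤ ut m (sL m k l + 2) := by
  have h1 : mL m k x ≤ mL m k l + (x - l) := l1_sub_le (ins m k) hx
  have h2 : mL m k l < 4 * (2 ^ m.kap (sL m k l + 1) * SS m (sL m k l + 2)) :=
    Pool.Agent.Helper30.T5g.lt_SS hm k hl
  have h3 := bb_le_ut m (sL m k l + 2)
  have h4 := kt_specT m (sL m k l + 2)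
  have h5 := hm.T2 (sL m k l + 1)
  have h6 : SS m (sL m k l) ≤ SS m (sL m k l + 2) := SS_mono m (by omega)
  have h7 : 1 ≤ 2 ^ m.kap (sL m k l + 1) := Nat.one_le_two_pow
  have h8 : 2 ^ 250 * (2 ^ m.kap (sL m k l + 1) * SS m (sL m k l + 2)) ≤ Tk m (sL m k l + 2) := by
    rw [Tk_eq, SS_succ m (sL m k l + 2)]
    calc 2 ^ 250 * (2 ^ m.kap (sL m k l + 1) * SS m (sL m k l + 2)) =
          2 ^ (m.kap (sL m k l + 1) + 250) * SS m (sL m k l + 2) := by
          rw [pow_add _ _ 250]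
          ring
      _ ≤ 2 ^ (m.q (sL m k l + 2) + m.kap (sL m k l + 2)) * SS m (sL m k l + 2) :=
          Nat.mul_le_mul_right _ (Nat.pow_le_pow_right (by norm_num) h5)
      _ ≤ 2 ^ (m.q (sL m k l + 2) + m.kap (sL m k l + 2) + 1) * SS m (sL m k l + 2) :=
          Nat.mul_le_mul_right _ (Nat.pow_le_pow_right (by norm_num) (by omega))
      _ = _ := by
          rw [show m.q (sL m k l + 2) + m.kap (sL m k l + 2) + 1 =
            m.kap (sL m k l + 2) + (m.q (sL m k l + 2) + 1) by ring, pow_add]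
          ring
  have h9 : SS m (sL m k l + 2) ≤ 2 ^ m.kap (sL m k l + 1) * SS m (sL m k l + 2) :=
    Nat.le_mul_of_pos_left _ h7
  generalize 2 ^ m.kap (sL m k l + 1) * SS m (sL m k l + 2) = A at *
  generalize SS m (sL m k l + 2) = A' at *
  generalize Tk m (sL m k l + 2) = B at *
  omega

/-- at all fronts of the state `l` the triples `k + 1, .., sL` are complete and no triple
`> sL + 1` has begun -/
theorem cpl_of (hm : m.Ok) {l x : ℕ} (hl : bb 0 ≤ mL m k l) (hx : l ≤ x)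
    (hx2 : x ≤ l + SS m (sL m k l)) : Cpl m k (sL m k l) x :=
  cpl_of' hm hl hx (mL_le_ut hm hl hx hx2)

theorem ef_bounds (hm : m.Ok) (k l t : ℕ) : l < ef m k l t ∧
    64 * (ef m k l t - l) ≤ SS m (sL m k l - t) ∧ ef m k l t ≤ l + SS m (sL m k l) := by
  have h1 := Pool.Agent.Helper30.T5g.lt_ez hm (sL m k l - t) l
  have h2 := Pool.Agent.Helper30.T5g.ez_sub_le hm (sL m k l - t) l
  have h3 := SS_mono m (Nat.sub_le (sL m k l) t)
  unfold ef
  refine ⟨h1, h2, ?_⟩
  omega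

theorem cpl_ef (hm : m.Ok) {l : ℕ} (hl : bb 0 ≤ mL m k l) (t : ℕ) :
    Cpl m k (sL m k l) (ef m k l t) :=
  cpl_of hm hl (ef_bounds hm k l t).1.le (ef_bounds hm k l t).2.2

theorem cpl_self (hm : m.Ok) {l : ℕ} (hl : bb 0 ≤ mL m k l) : Cpl m k (sL m k l) l :=
  cpl_of hm hl le_rfl (by omega)

/-! ## moduli -/

theorem Jn_pos (m : Sq) (k s l : ℕ) : 0 < Jn m k s l := NN_pos (pJ_prime k s) _

theorem Jn_mul_RT {s l : ℕ} (h : Cpl m k s l) : Jn m k s l * RT m k s = NL m k l := by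
  rw [Jn_eq_JJ, NL_eq h, mul_comm]

theorem FF_mul_RT (hm : m.Ok) {l : ℕ} (hl : bb 0 ≤ mL m k l) (t : ℕ) :
    FF m k l t * RT m k (sL m k l) = NL m k (ef m k l t) := Jn_mul_RT (cpl_ef hm hl t)

theorem FF_pos (m : Sq) (k l t : ℕ) : 0 < FF m k l t := Jn_pos _ _ _ _

theorem LLQ_pos (m : Sq) (k s r : ℕ) : 0 < LL (Pool.Agent.Helper84.T5g.QQ m k s) r :=
  LL_pos (fun _ _ => QT_pos _ _ _)

theorem LL_mul_RT (m : Sq) (k : ℕ) {s r : ℕ} (h : r ≤ s) :
    LL (Pool.Agent.Helper84.T5g.QQ m k s) r * RT m k (s - r) = RT m k s := by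
  induction r with
  | zero => rw [LL_zero, one_mul, Nat.sub_zero]
  | succ r ih =>
    rw [LL_succ, mul_assoc]
    have h1 : Pool.Agent.Helper84.T5g.QQ m k s r * RT m k (s - (r + 1)) = RT m k (s - r) := by
      unfold Pool.Agent.Helper84.T5g.QQ
      have h2 : s - r = s - (r + 1) + 1 := by omega
      rw [h2, RT_succ, mul_comm]
    rw [h1]
    exact ih (by omega)

/-- **the unit** -/
theorem Un_mul_RT (hm : m.Ok) {l : ℕ} (hl : bb 0 ≤ mL m k l) :
    Un m k l * RT m k (bL m k l) = NL m k l := by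
  have h1 := rL_bounds hm k l
  have h2 := LL_mul_RT m k (s := sL m k l) (r := rL m k l) h1.2.2.2.2.2
  have h3 : sL m k l - rL m k l = bL m k l := by omega
  rw [h3] at h2
  rw [← Jn_mul_RT (cpl_self hm hl), ← h2]
  unfold Un
  ring

theorem Un_pos (m : Sq) (k l : ℕ) : 0 < Un m k l := Nat.mul_pos (Jn_pos _ _ _ _) (LLQ_pos _ _ _ _)

theorem NL_pos (m : Sq) (k l : ℕ) : 0 < NL m k l := Pool.Agent.Helper48.T5g.NL_pos m k l

end Pool.Agent.Helper27.T5g
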